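import Pool.Agent.H578R2.Med.CntSat
import Pool.Agent.H578R2.Med.Bwd
import Pool.Agent.H578R2.Med.PH

/-!
# Is recognising the `j`-th generalised median stable matching in NP?

The decision problem (given a stable marriage instance `I`, a stable matching `M` and `1 ≤ j ≤ s`,
is `M = α_j`?) belongs to `NP` if and only if `NP = PP`; and then the polynomial hierarchy collapses
to `NP`.  (Of course all these statements are unconditional theorems.)

* From `M = α_j` in `NP` to `PP ⊆ NP`.  For every poset `P` of height 2 there is an instance whose
  stable matchings are the down-sets of `P`, and in `α_j` the rotation `x` is eliminated iff there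
  are fewer than `j` down-sets avoiding `x`.  Adding to `P` one new minimal element `b` with many
  elements above it, `α_j` tells whether the number of the down-sets of `P` is less than `j`.
  So the graph of the number of the down-sets is in `NP` (guess `α_j` and `α_{j+1}`).  The number of
  satisfying assignments of a formula can be read off the number of the down-sets of a poset
  of height 2, as a block of digits.
* From `PP ⊆ NP` to `M = α_j` in `NP`: `M = α_j` is a statement about the number of the
  stable matchings where man `m` has one of his best `r` women, and these are `#P` functions.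
-/

namespace Pool.Agent.Results.MP_89948a_lc.MedianInNP

open Pool.Agent.NPC Pool.Agent.NPC.Med

/-- The problem whether `M = α_j` is in `NP` iff `NP = PP`; this holds for the problem as a language
(of the valid inputs with answer yes), and as a promise problem (only the answers on the valid
inputs matter).  If the problem is in `NP` then the polynomial hierarchy is equal to `NP`. -/
theorem result :
    (InNPP (fun x : Inst × List ℕ × ℕ => Input x ∧ IsMedian x) ↔
      ∀ L : Set (List Bool), InNP L ↔ InPPc L) ∧
    ((∃ A : Set (List Bool), InNP A ∧ ∀ x : Inst × List ℕ × ℕ, Input x →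
      (bits x ∈ A ↔ IsMedian x)) ↔ ∀ L : Set (List Bool), InNP L ↔ InPPc L) ∧
    ((∃ A : Set (List Bool), InNP A ∧ ∀ x : Inst × List ℕ × ℕ, Input x →
      (bits x ∈ A ↔ IsMedian x)) → ∀ L : Set (List Bool), InPH L → InNP L) := by
  have h1 : (∃ A : Set (List Bool), InNP A ∧ ∀ x : Inst × List ℕ × ℕ, Input x →
      (bits x ∈ A ↔ IsMedian x)) →
      ∀ f, Cnt.SharpP f → InNPP (fun p : List Bool × ℕ => f p.1 = p.2) := by
    rintro ⟨A, hA, hag⟩ f hf
    exact graph_inNP cntHard hA hag hf
  have h2 : InNPP (fun x : Inst × List ℕ × ℕ => Input x ∧ IsMedian x) →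
      ∃ A : Set (List Bool), InNP A ∧ ∀ x : Inst × List ℕ × ℕ, Input x →
      (bits x ∈ A ↔ IsMedian x) := fun h =>
    ⟨_, h, fun x hx => by rw [bits_mem_lang]; exact ⟨fun h => h.2, fun h => ⟨hx, h⟩⟩⟩
  have h3 : (∀ L : Set (List Bool), InNP L ↔ InPPc L) →
      InNPP (fun x : Inst × List ℕ × ℕ => Input x ∧ IsMedian x) := fun h =>
    median_inNP fun f hf => graph_of_pp (fun L hL => (h L).2 hL) hf
  have h4 : (∃ A : Set (List Bool), InNP A ∧ ∀ x : Inst × List ℕ × ℕ, Input x →
      (bits x ∈ A ↔ IsMedian x)) → ∀ L : Set (List Bool), InNP L ↔ InPPc L := fun h L =>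
    ⟨np_sub_pp, pp_of_graph (h1 h)⟩
  exact ⟨⟨fun h => h4 (h2 h), h3⟩, ⟨h4, fun h => h2 (h3 h)⟩, fun h L hL =>
    ph_collapse (fun L => compl_of_graph (h1 h)) hL⟩

end Pool.Agent.Results.MP_89948a_lc.MedianInNP
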